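import Pool.Agent.Q5.RG.Pub

/-! Beilinson's conjecture for the base changes `C_F` of a curve `C` (or of any projective variety) over
a number field `K`: relations between the subfields of a Galois extension `L / K`, and the descent from
the subfields `F` such that `L / F` is hyperelementary. No continuation is presupposed. -/

namespace Pool.Agent.Results.MP_4132b3_nt.HyperelementaryDescent

open NumberField IsDedekindDomain Polynomial Pool.Agent.Q5.RG Pool.Agent.Q5.SO Pool.Agent.Q5.VL

/-- Beilinson's conjecture for `X_F` at `s = m`: the regulator is an isomorphism; for all choices of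
the bad Euler factors, `L(H^i(X_F), s)` has a meromorphic continuation to `Ω`; its order at `s = m` is
the dimension of motivic cohomology, and its leading coefficient a rational multiple of the determinant
of the regulator. -/
def Beilinson {K : Type} [Field K] [NumberField K] {n : ℕ} (X : Set (MvPolynomial (Fin n) (𝓞 K)))
    (d i N : ℕ) (m : ℤ) (Ω : Set ℂ) (M : Spaces ℚ ℝ Gal(AlgebraicClosure K/K)) (F : Type) [Field F]
    [NumberField F] [Algebra K F] : Prop :=
  (∃ p c, M.Reg F p c) ∧
    ∀ B : HeightOneSpectrum (𝓞 F) → ℚ[X], Sys X d i N m F B → M.Pow m Ω F B 1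

theorem result (K : Type) [Field K] [NumberField K] (n : ℕ) (X : Set (MvPolynomial (Fin n) (𝓞 K)))
    (d i N : ℕ) (hi : i ≤ 2 * d) (m : ℤ) (Ω : Set ℂ) (hΩ : IsDom Ω (m : ℂ))
    (hsys : ∀ (F : Type) [Field F] [NumberField F] [Algebra K F], ∃ B, Sys X d i N m F B)
    (M : Spaces ℚ ℝ Gal(AlgebraicClosure K/K)) (hM : M.Good)
    (L : Type) [Field L] [NumberField L] [Algebra K L] [IsGalois K L] :
    -- (1) the regulators over the subfields of `L`
    ((∃ p c, M.Reg L p c) →
      (∀ (F : Type) [Field F] [NumberField F] [Algebra K F] [Algebra F L] [IsScalarTower K F L],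
        ∃ p c, M.Reg F p c) ∧
      ∀ (ι : Type) [Fintype ι] (Z : ι → Type) [∀ j, Field (Z j)] [∀ j, NumberField (Z j)]
        [∀ j, Algebra K (Z j)] [∀ j, Algebra (Z j) L] [∀ j, IsScalarTower K (Z j) L] (a : ι → ℤ),
        ((∀ σ : Gal(AlgebraicClosure K/K), ∑ j, a j * (fixe (Z j) σ : ℤ) = 0) →
          ∀ (p : ι → ℕ) (c : ι → ℝ), (∀ j, M.Reg (Z j) (p j) (c j)) →
            ∑ j, a j * (p j : ℤ) = 0 ∧ ∃ q : ℚ, q ≠ 0 ∧ ∏ j, (c j) ^ (a j) = q) ∧
        -- (2) the conjecture in a relation
        ∀ (F : Type) [Field F] [NumberField F] [Algebra K F] [Algebra F L] [IsScalarTower K F L],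
          (∀ σ : Gal(AlgebraicClosure K/K), ∑ j, a j * (fixe (Z j) σ : ℤ) = fixe F σ) →
          (∀ j, Beilinson X d i N m Ω M (Z j)) → Beilinson X d i N m Ω M F) ∧
    -- (3) the descent
    ((∀ (F : Type) [Field F] [NumberField F] [Algebra K F] [Algebra F L] [IsScalarTower K F L],
        Hyper (L ≃ₐ[F] L) → Beilinson X d i N m Ω M F) →
      ∀ (F : Type) [Field F] [NumberField F] [Algebra K F] [Algebra F L] [IsScalarTower K F L],
        Beilinson X d i N m Ω M F) := by
  have hG := Spaces.goodM hM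
  refine ⟨fun hL => ?_, ?_⟩
  · have hL' := (Spaces.ex_iff hM.comp.onto).1 hL
    refine ⟨fun F _ _ _ _ _ => (Spaces.ex_iff hM.comp.onto).2 (sub_reg hG L hL' F), ?_⟩
    intro ι _ Z _ _ _ _ _ a
    refine ⟨fun h p c hc => ⟨?_, ?_⟩, ?_⟩
    · obtain ⟨c₀, hc₀⟩ := hL'
      have h1 := sub_rank hG L hc₀ Z a h
      rw [← h1]
      exact Finset.sum_congr rfl fun j _ => by rw [Spaces.reg_dim hM.comp.onto (hc j)]
    · exact (sub_rel_reg hG L hL' Z a h) c fun j => (Spaces.reg_iff _).1 ⟨p j, hc j⟩
    · intro F _ _ _ _ _ h hZ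
      exact (Spaces.conj_iff hM.comp.onto).1 (conjQ_rel hi hΩ hG hsys L hL' F Z a h
        fun j => (Spaces.conj_iff hM.comp.onto).2 (hZ j))
  · intro h F _ _ _ _ _
    refine (Spaces.conj_iff hM.comp.onto).1 (conjQ_hyper hi hΩ hG hsys L ?_ F)
    intro F' _ _ _ _ _ hF'
    exact (Spaces.conj_iff hM.comp.onto).2 (h F' hF')

end Pool.Agent.Results.MP_4132b3_nt.HyperelementaryDescent
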