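import Pool.Agent.Q223.LD.Ident

/-! Beilinson's conjecture for a curve `C` (or any projective variety) over a number field whose
L-function has a continuation (as for curves of genus one over `ℚ`), from the conjecture for the base
changes to the number fields `F` with prescribed local degrees. -/

set_option autoImplicit false

namespace Pool.Agent.Results.MP_4132b3_nt.LocalDegrees

open NumberField IsDedekindDomain Polynomial Pool.Agent.Q5.RG Pool.Agent.Q5.VL
open Pool.Agent.W353.EF (LFun)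

/-- Beilinson's conjecture for `X_F` at `s = m`: the regulator is an isomorphism; for all choices of
the bad Euler factors, `L(H^i(X_F), s)` has a meromorphic continuation to `Ω`; its order at `s = m` is
the dimension of motivic cohomology, and its leading coefficient a rational multiple of the determinant
of the regulator. -/
def Beilinson {K : Type} [Field K] [NumberField K] {n : ℕ} (X : Set (MvPolynomial (Fin n) (𝓞 K)))
    (d i N : ℕ) (m : ℤ) (Ω : Set ℂ) (M : Spaces ℚ ℝ Gal(AlgebraicClosure K/K)) (F : Type) [Field F]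
    [NumberField F] [Algebra K F] : Prop :=
  (∃ p c, M.Reg F p c) ∧
    ∀ B : HeightOneSpectrum (𝓞 F) → ℚ[X], Sys X d i N m F B → M.Pow m Ω F B 1

/-- `k` divides all local degrees `[F_v : ℚ_q]`, `v | q`, `q ∈ S` -/
def DividesLocal (k : ℕ) (S : Finset ℕ) (F : Type) [Field F] [NumberField F] : Prop :=
  ∀ q ∈ S, ∀ v : Ideal (𝓞 F), v.IsPrime → (q : 𝓞 F) ∈ v →
    k ∣ v.ramificationIdx ℤ * v.inertiaDeg ℤ

theorem result (K : Type) [Field K] [NumberField K] (n : ℕ) (X : Set (MvPolynomial (Fin n) (𝓞 K)))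
    (d i N : ℕ) (hi : i ≤ 2 * d) (m : ℤ) (Ω : Set ℂ) (hΩ : IsDom Ω (m : ℂ))
    (hsys : ∀ (F : Type) [Field F] [NumberField F] [Algebra K F], ∃ B, Sys X d i N m F B)
    (M : Spaces ℚ ℝ Gal(AlgebraicClosure K/K)) (hM : M.Good)
    (S : Finset ℕ) (hS : ∀ q ∈ S, q.Prime) (D : ℕ) (hD : D ≠ 0)
    -- the conjecture for the fields whose local degrees above `S` are divisible by `D`
    (h : ∀ (F : Type) [Field F] [NumberField F] [Algebra K F], DividesLocal D S F →
      Beilinson X d i N m Ω M F)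
    -- a field whose local degrees above `S` are divisible by `g`, for example `g = 1`
    (F : Type) [Field F] [NumberField F] [Algebra K F] (g : ℕ) (hg : DividesLocal g S F)
    -- the continuation `f` of the L-function over this field
    (B : HeightOneSpectrum (𝓞 F) → ℚ[X]) (hB : Sys X d i N m F B) (f : ℂ → ℂ)
    (hf : MeromorphicOn f Ω) (hfB : ∃ b : ℝ, ∀ s : ℂ, b < s.re → f s = LFun (mp B) s) :
    (∃ p c, M.Reg F p c) ∧ ∀ p c, M.Reg F p c →
      meromorphicOrderAt f m = ((p : ℕ) : WithTop ℤ) ∧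
      ∃ x : ℚ, x ≠ 0 ∧ (meromorphicTrailingCoeffAt f m) ^ (D / D.gcd g) =
        x * (c : ℂ) ^ (D / D.gcd g) := by
  have hgcd : 0 < D.gcd g := Nat.gcd_pos_of_pos_left _ (Nat.pos_of_ne_zero hD)
  have hpos : 0 < D / D.gcd g :=
    Nat.div_pos (Nat.le_of_dvd (Nat.pos_of_ne_zero hD) (Nat.gcd_dvd_left _ _)) hgcd
  obtain ⟨h1, h2⟩ := Pool.Agent.Q223.LD.rg_power hi hΩ hsys hM hS hD
    (fun F' _ _ _ hF' => by
      obtain ⟨h1, h2⟩ := h F' hF'
      exact ⟨h1, h2⟩) F g hg
  refine ⟨h1, fun p c hc => ?_⟩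
  obtain ⟨f', hf', ⟨b', hb'⟩, h3⟩ := h2 B hB
  obtain ⟨h4, x, hx, h5⟩ := h3 p c hc
  obtain ⟨b, hb⟩ := hfB
  obtain ⟨h6, h7⟩ := Pool.Agent.Q223.LD.ident_order hΩ hf hf' hpos.ne' ⟨max b b', fun s hs => by
    rw [hb' s ((le_max_right _ _).trans_lt hs), hb s ((le_max_left _ _).trans_lt hs)]⟩ h4
  exact ⟨h6, x, hx, by rw [← h7, h5]⟩

end Pool.Agent.Results.MP_4132b3_nt.LocalDegrees
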