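import Pool.Agent.Q5.RY.Rigid

/-! Beilinson's conjecture for the base changes `C_F` of a curve `C` (or of any projective
variety) over a number field `K`: the number fields `F` without automorphisms suffice, and the regulator
descends to every subfield. No continuation is presupposed. -/

namespace Pool.Agent.Results.MP_4132b3_nt.RigidFields

open NumberField IsDedekindDomain Polynomial Pool.Agent.Q5.RG Pool.Agent.Q5.VL

/-- The identity is the only automorphism of the field `F`. -/
def NoAutomorphisms (F : Type) [Field F] : Prop :=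
  ∀ (τ : F ≃+* F) (x : F), τ x = x

/-- A set of positive integers closed under multiples, with greatest common divisor `1`; for example
the multiples of `10^100` together with the multiples of `3^100`, or all `n ≥ 10^100`. -/
def IsSparse (D : Set ℕ) : Prop :=
  (∀ d ∈ D, ∀ n : ℕ, 0 < n → d * n ∈ D) ∧ ∀ g : ℕ, (∀ d ∈ D, g ∣ d) → g = 1

/-- the regulator of `X_F` is an isomorphism, and for all choices of the bad Euler factors the `t`-th
power of `L(H^i(X_F), s)` has a meromorphic continuation to `Ω`; its order at `s = m` is `t` times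
the dimension of motivic cohomology, and its leading coefficient a rational multiple of the `t`-th
power of the determinant of the regulator. -/
def BeilinsonPower {K : Type} [Field K] [NumberField K] {n : ℕ}
    (X : Set (MvPolynomial (Fin n) (𝓞 K))) (d i N : ℕ) (m : ℤ) (Ω : Set ℂ)
    (M : Spaces ℚ ℝ Gal(AlgebraicClosure K/K)) (F : Type) [Field F] [NumberField F] [Algebra K F]
    (t : ℕ) : Prop :=
  (∃ p c, M.Reg F p c) ∧
    ∀ B : HeightOneSpectrum (𝓞 F) → ℚ[X], Sys X d i N m F B → M.Pow m Ω F B t

theorem result (K : Type) [Field K] [NumberField K] (n : ℕ) (X : Set (MvPolynomial (Fin n) (𝓞 K)))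
    (d i N : ℕ) (hi : i ≤ 2 * d) (m : ℤ) (Ω : Set ℂ) (hΩ : IsDom Ω (m : ℂ))
    (hsys : ∀ (F : Type) [Field F] [NumberField F] [Algebra K F], ∃ B, Sys X d i N m F B)
    (M : Spaces ℚ ℝ Gal(AlgebraicClosure K/K)) (hM : M.Good) :
    -- (1) the regulator over the subfields of `F'`, Galois or not
    (∀ (F F' : Type) [Field F] [NumberField F] [Algebra K F] [Field F'] [NumberField F']
      [Algebra K F'] [Algebra F F'] [IsScalarTower K F F'],
      (∃ p c, M.Reg F' p c) → ∃ p c, M.Reg F p c) ∧
    -- (2) the conjecture over the fields without automorphisms, a set of degrees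
    (∀ D : Set ℕ, IsSparse D →
      (∀ (F : Type) [Field F] [NumberField F] [Algebra K F], NoAutomorphisms F →
        Module.finrank K F ∈ D → BeilinsonPower X d i N m Ω M F 1) →
      ∀ (F : Type) [Field F] [NumberField F] [Algebra K F], BeilinsonPower X d i N m Ω M F 1) ∧
    -- (3) the conjecture over the fields without automorphisms, degrees divisible by `D`
    (∀ D : ℕ, D ≠ 0 →
      (∀ (F : Type) [Field F] [NumberField F] [Algebra K F], NoAutomorphisms F →
        D ∣ Module.finrank K F → BeilinsonPower X d i N m Ω M F 1) →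
      ∀ (F : Type) [Field F] [NumberField F] [Algebra K F],
        BeilinsonPower X d i N m Ω M F (D / D.gcd (Module.finrank K F))) := by
  have hG := Spaces.goodM hM
  refine ⟨?_, fun D hD h F _ _ _ => ?_, fun D hD h F _ _ _ => ?_⟩
  · intro F F' _ _ _ _ _ _ _ _ h
    exact (Spaces.ex_iff hM.comp.onto).2 (Pool.Agent.Q5.RY.reg_sub_any hG (F' := F')
      ((Spaces.ex_iff hM.comp.onto).1 h))
  · exact (Spaces.conj_iff hM.comp.onto).1 (Pool.Agent.Q5.RY.conjQ_rigid hi hΩ hG hsys hD.1 hD.2
      (fun F' _ _ _ hr hF' => (Spaces.conj_iff hM.comp.onto).2 (h F' hr hF')) F)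
  · obtain ⟨h1, h2⟩ := Pool.Agent.Q5.RY.conjQ_rigid_power hi hΩ hG hsys (D := D)
      (fun F' _ _ _ hr hF' => (Spaces.conj_iff hM.comp.onto).2 (h F' hr hF')) F hD
    have h3 := (Spaces.ex_iff hM.comp.onto).2 h1
    exact ⟨h3, fun B hB => (Spaces.pow_iff hM.comp.onto h3).2 (h2 B hB)⟩

end Pool.Agent.Results.MP_4132b3_nt.RigidFields
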